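import Pool.Agent.Helper156.OddJM.Positive

/-!
# Symmetric functions in the odd Jucys-Murphy elements fill the Hecke algebra of `(S_{2n}, H_n)`

The points `1, ..., 2 n` are written as pairs: `(i, false)` stands for `2 i + 1` and `(i, true)`
for `2 i + 2`, where `i : Fin n`.  The definitions of `hyp n` (the hyperoctahedral group), `P n`
(the sum of its elements), `J k` (the Jucys-Murphy element `J_{2k+1}`), `hecke n` (the Hecke
algebra) and `evalJ` (evaluation of polynomials in `n` commuting variables at
`J_1, J_3, ..., J_{2n-1}`) are in `Pool.Agent.Helper156.OddJM.Basic`.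
-/

set_option autoImplicit false

open Pool.Agent.Helper156.OddJM

namespace Pool.Agent.Results.MP_fb7f9c_al.OddJucysMurphy

/-- For every `n`, the elements `F(J_1, J_3, ..., J_{2n-1}) P_n` with `F` a symmetric function are
exactly the elements of the Hecke algebra of `(S_{2n}, H_n)`.  The first part takes for `F` all
symmetric polynomials in `n` variables (the restrictions of symmetric functions to `n`
variables), the second part takes for `F` all polynomials in the power sums `p_1, p_2, p_3, ...`
(the ring of symmetric functions in infinitely many variables is the polynomial ring in them). -/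
theorem result (n : ℕ) :
    {x : GA n | ∃ F : MvPolynomial (Fin n) ℂ, F.IsSymmetric ∧ evalJ F * P n = x}
        = {x : GA n | ∀ g, ∀ h ∈ hyp n, ∀ k ∈ hyp n, x.coeff (h * g * k) = x.coeff g} ∧
      {x : GA n | ∃ F : MvPolynomial ℕ ℂ, evalJ (MvPolynomial.aeval
          (fun k : ℕ => MvPolynomial.psum (Fin n) ℂ (k + 1)) F) * P n = x}
        = {x : GA n | ∀ g, ∀ h ∈ hyp n, ∀ k ∈ hyp n, x.coeff (h * g * k) = x.coeff g} := by
  refine ⟨?_, ?_⟩
  · exact congrArg (fun M : Submodule ℂ (GA n) => (M : Set (GA n))) (img_eq_hecke n)
  · exact congrArg (fun M : Submodule ℂ (GA n) => (M : Set (GA n))) (imgp_eq_hecke n)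

end Pool.Agent.Results.MP_fb7f9c_al.OddJucysMurphy
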